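import Mathlib
import Pool.Agent.H.MP_bff4fe_gt.B

namespace Pool.Agent.Results.MP_bff4fe_gt.Yes
open Set Pool.Agent.H.MP_0815b2_gt

/-- `F` is a (solid, nondegenerate) rectangle -/
def IsRect (F : Set ℂ) : Prop := ∃ z u v : ℂ, u ≠ 0 ∧ v ≠ 0 ∧ inner ℝ u v = 0 ∧
  F = {x | ∃ s ∈ Icc (0 : ℝ) 1, ∃ t ∈ Icc (0 : ℝ) 1, x = z + s • u + t • v}

theorem far {F : Set ℂ} (hF : IsCompact F) {γ : ℝ → ℂ} (hr : range γ = F \ interior F)
    (f : ℂ →L[ℝ] ℝ) (w : ℂ) (hw : 0 < f w) {x : ℂ} (hx : x ∈ F) : ∃ t, f x ≤ f (γ t) := by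
  obtain ⟨y, hy, hm⟩ := hF.exists_isMaxOn ⟨x, hx⟩ f.continuous.continuousOn
  have : y ∉ interior F := fun hy' => by
    have c1 : Continuous fun c : ℝ => y + c • w := by fun_prop
    have := (c1.tendsto' 0 y (by simp)).eventually (mem_interior_iff_mem_nhds.1 hy')
    obtain ⟨c, hc1, hc2⟩ := ((this.filter_mono nhdsWithin_le_nhds).and
      (self_mem_nhdsWithin (s := Ioi (0 : ℝ)))).exists
    have h5 : f (y + c • w) ≤ f y := hm hc1
    have hc3 : 0 < c := hc2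
    rw [map_add, map_smul, smul_eq_mul] at h5
    linarith [mul_pos hc3 hw]
  obtain ⟨t, ht⟩ : y ∈ range γ := hr ▸ ⟨hy, this⟩
  exact ⟨t, ht ▸ hm hx⟩

theorem rect {F : Set ℂ} (hF : IsCompact F) (hc : Convex ℝ F) {γ : ℝ → ℂ}
    (hr : range γ = F \ interior F) (φ : ℂ ≃ₗᵢ[ℝ] ℂ) (h : Box fun t => φ (γ t)) : IsRect F := by
  obtain ⟨x0, x1, y0, y1, hx, hy, hb, ⟨s0, a0⟩, ⟨s1, a1⟩, ⟨s2, a2⟩, ⟨s3, a3⟩⟩ := h
  have hγ : ∀ t, γ t ∈ F := fun t => (hr ▸ mem_range_self t : γ t ∈ F \ interior F).1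
  let ψ : ℂ →L[ℝ] ℂ := φ.toContinuousLinearEquiv
  refine ⟨φ.symm ⟨x0, y0⟩, φ.symm ⟨x1 - x0, 0⟩, φ.symm ⟨0, y1 - y0⟩, ?_, ?_, ?_, ?_⟩
  · simp [Complex.ext_iff]; linarith
  · simp [Complex.ext_iff]; linarith
  · rw [LinearIsometryEquiv.inner_map_map, Complex.inner]; simp
  ext x
  constructor
  · intro hx'
    obtain ⟨t1, b1⟩ := far hF hr (Complex.reCLM.comp ψ) (φ.symm 1) (by simp [ψ]) hx'
    obtain ⟨t2, b2⟩ := far hF hr (-Complex.reCLM.comp ψ) (φ.symm (-1)) (by simp [ψ]) hx'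
    obtain ⟨t3, b3⟩ := far hF hr (Complex.imCLM.comp ψ) (φ.symm Complex.I) (by simp [ψ]) hx'
    obtain ⟨t4, b4⟩ := far hF hr (-Complex.imCLM.comp ψ) (φ.symm (-Complex.I)) (by simp [ψ]) hx'
    simp [ψ] at b1 b2 b3 b4
    have := hb t1; have := hb t2; have := hb t3; have := hb t4
    have dx : 0 < x1 - x0 := by linarith
    have dy : 0 < y1 - y0 := by linarith
    refine ⟨((φ x).re - x0) / (x1 - x0), ⟨div_nonneg (by linarith) dx.le,
      (div_le_one dx).2 (by linarith)⟩, ((φ x).im - y0) / (y1 - y0),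
      ⟨div_nonneg (by linarith) dy.le, (div_le_one dy).2 (by linarith)⟩, φ.injective ?_⟩
    simp only [map_add, map_smul, LinearIsometryEquiv.apply_symm_apply]
    apply Complex.ext <;>
      simp only [Complex.add_re, Complex.add_im, Complex.smul_re, Complex.smul_im, smul_eq_mul] <;>
      field_simp <;> ring
  · rintro ⟨s, hs, t, ht, rfl⟩
    have m1 := hc (hγ s0) (hγ s1) (sub_nonneg.2 hs.2) hs.1 (by ring)
    have m2 := hc (hγ s2) (hγ s3) (sub_nonneg.2 hs.2) hs.1 (by ring)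
    have m3 := hc m1 m2 (sub_nonneg.2 ht.2) ht.1 (by ring)
    convert m3 using 1
    apply φ.injective
    simp only at a0 a1 a2 a3
    simp only [map_add, map_smul, LinearIsometryEquiv.apply_symm_apply, a0, a1, a2, a3]
    apply Complex.ext <;> simp <;> ring

theorem result (F : Set ℂ) (hF : IsCompact F) (hc : Convex ℝ F) (hi : (interior F).Nonempty)
    (γ : ℝ → ℂ) (cont : Continuous γ) (per : Function.Periodic γ 1) (inj : InjOn γ (Ico 0 1))
    (hr : range γ = frontier F) (p : ℝ) (_hp : eVariationOn γ (Icc 0 1) = ENNReal.ofReal p)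
    (t0 t1 t2 t3 : ℝ) (h1 : t0 < t1) (h2 : t1 < t2) (h3 : t2 < t3) (h4 : t3 < t0 + 1)
    (l1 : eVariationOn γ (Icc t0 t1) = ENNReal.ofReal (p / 4))
    (l2 : eVariationOn γ (Icc t1 t2) = ENNReal.ofReal (p / 4))
    (l3 : eVariationOn γ (Icc t2 t3) = ENNReal.ofReal (p / 4))
    (l4 : eVariationOn γ (Icc t3 (t0 + 1)) = ENNReal.ofReal (p / 4))
    (hperp : inner ℝ (γ t0 - γ t2) (γ t1 - γ t3) = 0) :
    p ≤ 2 * (dist (γ t0) (γ t2) + dist (γ t1) (γ t3)) ∧
      (p = 2 * (dist (γ t0) (γ t2) + dist (γ t1) (γ t3)) → IsRect F) := by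
  have ij := inj_per per inj
  have hL : 0 < p / 4 := by
    have := eVariationOn.edist_le γ (s := Icc t0 t1) (right_mem_Icc.2 h1.le) (left_mem_Icc.2 h1.le)
    rw [l1] at this
    exact ENNReal.ofReal_pos.1 ((edist_pos.2 (ij t0 t1 h1 (by linarith))).trans_le this)
  have hfr : frontier F = F \ interior F := hF.isClosed.frontier_eq
  have hγ : ∀ t, γ t ∈ F \ interior F := fun t => hfr ▸ hr ▸ mem_range_self t
  have m1 := len_of_var γ _ _ _ h1.le hL.le l1
  have m2 := len_of_var γ _ _ _ h2.le hL.le l2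
  have m3 := len_of_var γ _ _ _ h3.le hL.le l3
  have m4 := len_of_var γ _ _ _ h4.le hL.le l4
  have hperp' : (γ t0 - γ t2).re * (γ t1 - γ t3).re + (γ t0 - γ t2).im * (γ t1 - γ t3).im = 0 := by
    rw [Complex.inner, Complex.mul_re, Complex.conj_re, Complex.conj_im] at hperp
    linarith
  simp only [dist_eq_norm]
  rcases orient hc hi cont per ij hγ with o | o
  · obtain ⟨a, b⟩ := half cont per ij o h1 h2 h3 h4 hL m1 m2 m3 m4 hperp'
    refine ⟨by linarith, fun e => ?_⟩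
    obtain ⟨e, he⟩ := b (by linarith)
    exact rect hF hc (hr.trans hfr) (rotation e) he
  · have hn : ∀ s t, ‖(starRingEnd ℂ) (γ t) - (starRingEnd ℂ) (γ s)‖ = ‖γ t - γ s‖ :=
      fun s t => by rw [← map_sub, Complex.norm_conj]
    have hl : ∀ r r', Len γ r r' (p / 4) → Len (fun t => (starRingEnd ℂ) (γ t)) r r' (p / 4) :=
      fun r r' h ψ c hc => h ψ c fun s t a b d => hn s t ▸ hc s t a b d
    have := half (γ := fun t => (starRingEnd ℂ) (γ t)) (by fun_prop) (fun t => by rw [per t])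
      (fun s t a b e => ij s t a b ((starRingEnd ℂ).injective e)) o h1 h2 h3 h4 hL
      (hl _ _ m1) (hl _ _ m2) (hl _ _ m3) (hl _ _ m4) (by
        simp only [Complex.sub_re, Complex.sub_im, Complex.conj_re, Complex.conj_im] at hperp' ⊢
        linarith)
    rw [hn, hn] at this
    obtain ⟨a, b⟩ := this
    refine ⟨by linarith, fun e => ?_⟩
    obtain ⟨e, he⟩ := b (by linarith)
    exact rect hF hc (hr.trans hfr) (Complex.conjLIE.trans (rotation e)) he

end Pool.Agent.Results.MP_bff4fe_gt.Yes
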